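import Pool.Agent.H65.Mc8

set_option autoImplicit false

namespace Pool.Agent.Results.MP_b9f959_al.RightEngel

/-- `H` is ascendant in `K`: an ordinal-indexed chain from `H` to `K`, each term normal in the next,
with unions at limit ordinals. -/
def Ascendant {G : Type} [Group G] (H K : Subgroup G) : Prop :=
  ∃ (α : Ordinal.{0}) (S : Ordinal.{0} → Subgroup G), S 0 = H ∧ S α = K ∧
    (∀ β < α, S β ≤ S (β + 1) ∧ ((S β).subgroupOf (S (β + 1))).Normal) ∧
    ∀ l ≤ α, Order.IsSuccLimit l → (S l : Set G) = ⋃ β < l, (S β : Set G)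

/-- In a group with the minimal condition on centralizers, `R(G) = ϱ(G)`. -/
theorem result :
    ∀ (G : Type) [Group G],
      (∀ X : Set G, ∃ X₀ : Finset G, (↑X₀ : Set G) ⊆ X ∧
          Subgroup.centralizer X = Subgroup.centralizer (↑X₀ : Set G)) →
      ∀ a : G,
        (∀ x : G, ∃ n : ℕ, (fun y : G => y⁻¹ * x⁻¹ * y * x)^[n] a = 1) ↔
        ∀ x : G, Ascendant (Subgroup.zpowers x)
          (Subgroup.zpowers x ⊔ Subgroup.normalClosure ({a} : Set G)) := by
  intro G _ hG a
  have he : ∀ y : G, (fun z : G => z⁻¹ * y⁻¹ * z * y) = Pool.Agent.H65.Mc.eng y := fun y => by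
    funext z; simp only [Pool.Agent.H65.Mc.eng, mul_assoc]
  simp only [he]
  constructor
  · intro h x
    obtain ⟨α, S, h0, hα, hs, hl⟩ := Pool.Agent.H65.Mc.IsMc.exists_chain hG
      (Pool.Agent.H65.Mc.IsMc.locNil_right hG h x) le_sup_right
    exact ⟨α, S, h0, hα.trans (sup_comm _ _), fun β _ => ⟨(hs β).1,
      (Subgroup.normal_subgroupOf_iff_le_normalizer (hs β).1).2 (hs β).2⟩, fun l _ => hl l⟩
  · intro h x
    obtain ⟨α, S, h0, hα, hs, hl⟩ := h x
    refine (Pool.Agent.H65.Mc.engel_of_chain h0 (fun β hβ => ⟨(hs β hβ).1,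
      (Subgroup.normal_subgroupOf_iff_le_normalizer (hs β hβ).1).1 (hs β hβ).2⟩) hl α le_rfl).2 a ?_
    rw [hα]
    exact Subgroup.mem_sup_right (Subgroup.subset_normalClosure rfl)

end Pool.Agent.Results.MP_b9f959_al.RightEngel
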